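import Pool.Agent.Q205.MAD.Main

/-!
The complement of the union of finitely many of the sets `XS s` (`s` with infinitely many values)
is infinite.
-/

namespace Pool.Agent.Q220.MAD

open Pool.Agent.Q205.MAD
open Nat.Partrec (Code)
open Nat.Partrec.Code Denumerable Encodable

/-- After a value `r` is added at stage `t`, no number in `(r, t]` belongs to the set. -/
theorem not_mem_between {s : List ℕ} {t r z : ℕ} (h : L s (t + 1) = r :: L s t)
    (h' : a s (t + 1) = t + 1) (hr : a s t ≤ r) (h1 : r < z) (h2 : z ≤ t) : z ∉ XS s := by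
  rintro (hz | ⟨u, hz⟩)
  · have := ((inv s (t + 1)).1 r (by rw [h]; exact List.mem_cons_self)).1
    omega
  · by_cases hzt : z ∈ L s (t + 1)
    · rw [h] at hzt
      rcases List.mem_cons.1 hzt with h3 | h3
      · omega
      · have := ((inv s t).1 z h3).2.1
        omega
    · have hu : t + 1 ≤ u := by
        by_contra hcon
        exact hzt (L_mono s (by omega) z hz)
      obtain ⟨v, hv, h3, h4, h5, h6⟩ := added hz
      have hv2 : t + 1 ≤ v := by
        by_contra hcon
        exact hzt (L_mono s (show v + 1 ≤ t + 1 by omega) z (by rw [h5]; exact List.mem_cons_self))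
      have h7 := a_mono s hv2
      have h8 : a s v ≤ z := h4.1
      omega

/-- A gap in the union of the sets which are guessed to be infinite. -/
theorem gap (n : ℕ) : ∀ (s : List ℕ) (t r : ℕ), s.length = n → C s t r →
    L s (t + 1) = r :: L s t → a s (t + 1) = t + 1 →
    ∃ z, r < z ∧ z ≤ t ∧ z ∉ XS s ∧ ∀ j, j < s.length → s.getD j 0 = 0 → z ∉ XS (s.take j) := by
  classical
  induction n using Nat.strong_induction_on with
  | _ n ih =>
    intro s t r hn hC hL ha
    by_cases hex : ∃ j, j < s.length ∧ s.getD j 0 = 0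
    · -- the largest such index
      obtain ⟨j, ⟨hj, hj0⟩, hmax⟩ : ∃ j, (j < s.length ∧ s.getD j 0 = 0) ∧
          ∀ i, i < s.length → s.getD i 0 = 0 → i ≤ j := by
        have hP : ∃ i, i ≤ s.length ∧ (i < s.length ∧ s.getD i 0 = 0) := by
          obtain ⟨j, h1, h2⟩ := hex
          exact ⟨j, h1.le, h1, h2⟩
        obtain ⟨i, hi, hi2⟩ := hP
        refine ⟨Nat.findGreatest (fun i => i < s.length ∧ s.getD i 0 = 0) s.length, ?_, ?_⟩
        · exact Nat.findGreatest_spec (P := fun i => i < s.length ∧ s.getD i 0 = 0) hi hi2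
        · intro i h1 h2
          exact Nat.le_findGreatest (P := fun i => i < s.length ∧ s.getD i 0 = 0) h1.le ⟨h1, h2⟩
      obtain ⟨⟨x, hx, hrx⟩, -⟩ := (hC.2.2 j hj).1 hj0
      have hx' : x ∈ L (s.take j) t := hx
      obtain ⟨u, hu, h1, h2, h3, h4⟩ := added hx'
      have hlen : (s.take j).length = j := by simp [hj.le]
      obtain ⟨z, hz1, hz2, hz3, hz4⟩ := ih j (by omega) (s.take j) u x hlen h2 h3 h4
      refine ⟨z, by omega, by omega, ?_, ?_⟩
      · exact not_mem_between hL ha hC.1 (by omega) (by omega)
      · intro i hi hi0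
        rcases (hmax i hi hi0).lt_or_eq with h5 | h5
        · have h6 := hz4 i (by omega) (by
            rw [List.getD_eq_getElem?_getD, List.getElem?_take_of_lt h5,
              ← List.getD_eq_getElem?_getD]
            exact hi0)
          rw [List.take_take, min_eq_left h5.le] at h6
          exact h6
        · rw [h5]; exact hz3
    · push Not at hex
      have hb : r < t := by
        have h1 : (1 : ℕ) ∈ evaln t (ofNat Code s.length) r := hC.2.1
        exact evaln_bound h1
      refine ⟨r + 1, by omega, by omega, ?_, fun j hj hj0 => absurd hj0 (hex j hj)⟩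
      exact not_mem_between hL ha hC.1 (by omega) (by omega)

/-- The complement of the union of finitely many infinite sets `XS s` is infinite. -/
theorem compl_infinite (F : Finset (List ℕ)) (hF : ∀ s ∈ F, Inf s) :
    {x | ∀ s ∈ F, x ∉ XS s}.Infinite := by
  classical
  rcases F.eq_empty_or_nonempty with rfl | hne
  · have : {x : ℕ | ∀ s ∈ (∅ : Finset (List ℕ)), x ∉ XS s} = Set.univ := by
      ext x; simp
    rw [this]
    exact Set.infinite_univ
  · obtain ⟨s, hs, hmax⟩ := F.exists_max_image List.length hne
    rw [Set.infinite_iff_exists_gt]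
    intro m
    have hI := hF s hs
    obtain ⟨t, x, hx, hmx⟩ := hI.exists_gt m
    obtain ⟨u, -, h1, h2, h3, h4⟩ := added hx
    obtain ⟨z, hz1, hz2, hz3, hz4⟩ := gap s.length s u x rfl h2 h3 h4
    refine ⟨z, ?_, by omega⟩
    intro s' hs'
    rcases (hmax s' hs').lt_or_eq with hlt | heq
    · have hs'I := hF s' hs'
      have e : s' = s.take s'.length :=
        tr_unique rfl (by simp [hlt.le]) hs'I.tr (hI.tr.take _)
      have h0 : s.getD s'.length 0 = 0 := by
        rcases hI.tr s'.length hlt with ⟨h5, -⟩ | ⟨-, h6⟩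
        · exact h5
        · rw [← e] at h6
          exact absurd h6 (hs'I.not_lim _)
      have h7 := hz4 s'.length hlt h0
      rw [← e] at h7
      exact h7
    · have e : s' = s := tr_unique heq rfl (hF s' hs').tr hI.tr
      rw [e]; exact hz3

end Pool.Agent.Q220.MAD
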